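import Pool.Agent.W900.CH.Levels

/-!
# How thin a set of strings allows to collapse `TIME 2_m^POL ⊆ SPACE 2_m^POL` by changes on it?

Let `Z` be a set of strings with, for every `ε > 0` and infinitely many `n`, at most
`2 ^ ((log^{(m)} n) ^ ε)` strings of length at most `n`, where `log^{(m)}` is the logarithm iterated
`m` times. Then for almost every oracle `O` the inclusion `TIME 2_m^POL ⊆ SPACE 2_m^POL` is strict
relative to all oracles `A` that agree with `O` outside `Z`; even `SPACE 2_m^POL` is not contained in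
the hierarchy over `TIME 2_m^POL` with polynomial advice.

Conversely, for every `m` and `ε > 0` there is a set `Z` with at most `2 ^ ((log^{(m)} n) ^ ε)`
strings of length at most `n` (for all large `n`) such that every oracle `O` can be changed on `Z` in
such a way that `TIME 2_m^POL = SPACE 2_m^POL`, while for almost every `O` no change on `Z` can
make one of the lower inclusions `TIME 2_i^POL ⊆ SPACE 2_i^POL`, `i < m`, an equality.

For `m = 0`, that is for `P` and `PSPACE`, the first statement holds for all oracles `A` that are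
obtained from `O` by few changes at arbitrary positions.
-/

set_option autoImplicit false

namespace Pool.Agent.Results.MP_47ff19_lc.ChangedStrings

open Pool.Agent.NPC Pool.Agent.H620R2.Gauge Pool.Agent.W900.CH H529R3.Lev
open Pool.Agent.H628R3.RO (randomOracle)
open MeasureTheory

theorem result :
    (∀ (m : ℕ) (Z : Set (List Bool)),
      (∀ ε : ℝ, 0 < ε → ∃ᶠ n : ℕ in Filter.atTop,
        (census Z n : ℝ) ≤ 2 ^ ((Real.logb 2)^[m] (n : ℝ)) ^ ε) →
      ∀ᵐ O ∂randomOracle, ∀ A : Oracle, (∀ y ∉ Z, A y = O y) →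
        (∃ L, IsSpace m A L ∧ ¬ IsTHpoly m A L) ∧ ∃ L, IsSpace m A L ∧ ¬ IsTime m A L) ∧
    (∀ (m : ℕ) (ε : ℝ), 0 < ε → ∃ Z : Set (List Bool),
      (∀ᶠ n : ℕ in Filter.atTop, (census Z n : ℝ) ≤ 2 ^ ((Real.logb 2)^[m] (n : ℝ)) ^ ε) ∧
      (∀ O : Oracle, ∃ A : Oracle, (∀ y ∉ Z, A y = O y) ∧ ∀ L, IsTime m A L ↔ IsSpace m A L) ∧
      ∀ᵐ O ∂randomOracle, ∀ A : Oracle, (∀ y ∉ Z, A y = O y) → ∀ i < m,
        (∃ L, IsSpace i A L ∧ ¬ IsTHpoly i A L) ∧ ∃ L, IsSpace i A L ∧ ¬ IsTime i A L) ∧
    (∀ g : ℕ → ℝ, (∀ ε : ℝ, 0 < ε → ∃ᶠ n : ℕ in Filter.atTop, g n ≤ 2 ^ (n : ℝ) ^ ε) →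
      ∀ᵐ O ∂randomOracle, ∀ A : Oracle, Close g O A →
        (∃ L, IsSpace 0 A L ∧ ¬ IsTHpoly 0 A L) ∧ ∃ L, IsSpace 0 A L ∧ ¬ IsTime 0 A L) := by
  have hT : ∀ (i : ℕ) (A : Oracle), (∃ L, IsSpace i A L ∧ ¬ IsTHpoly i A L) →
      (∃ L, IsSpace i A L ∧ ¬ IsTHpoly i A L) ∧ ∃ L, IsSpace i A L ∧ ¬ IsTime i A L := by
    rintro i A ⟨L, h1, h2⟩
    exact ⟨⟨L, h1, h2⟩, L, h1, fun h => h2 h.isTH.isTHpoly⟩
  refine ⟨fun m Z hZ => ?_, fun m ε hε => ?_, fun g hg => ?_⟩
  · filter_upwards [ae_thin_level m hZ] with O hO A hA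
    exact hT m A (hO A hA)
  · obtain ⟨Z, hZ, h⟩ := exists_thin_level m hε
    refine ⟨Z, hZ, fun O => ?_, ?_⟩
    · obtain ⟨A, h1, h2⟩ := h O
      exact ⟨A, h1, fun L => ⟨fun hL => hL.isSpace, h2 L⟩⟩
    · have hi : ∀ i : ℕ, ∀ᵐ O ∂randomOracle, i < m → ∀ A : Oracle, (∀ y ∉ Z, A y = O y) →
          ∃ L, IsSpace i A L ∧ ¬ IsTHpoly i A L := by
        intro i
        by_cases him : i < m
        · have hfr : ∀ ε' : ℝ, 0 < ε' → ∃ᶠ n : ℕ in Filter.atTop,
              (census Z n : ℝ) ≤ 2 ^ ((Real.logb 2)^[i] (n : ℝ)) ^ ε' := by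
            intro ε' hε'
            apply Filter.Eventually.frequently
            obtain ⟨j, rfl⟩ : ∃ j, m = i + (j + 1) := ⟨m - i - 1, by omega⟩
            have ht : Filter.Tendsto (fun n : ℕ => (Real.logb 2)^[i] (n : ℝ)) Filter.atTop
                Filter.atTop :=
              ((Real.tendsto_logb_atTop (b := 2) (by norm_num)).iterate i).comp
                (tendsto_natCast_atTop_atTop (R := ℝ))
            filter_upwards [hZ, ht.eventually (iter_rpow j hε hε')] with n h1 h2
            refine h1.trans (Real.rpow_le_rpow_of_exponent_le (by norm_num) ?_)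
            rw [← Function.iterate_add_apply] at h2
            have e : j + 1 + i = i + (j + 1) := by ring
            rw [e] at h2
            exact h2
          filter_upwards [ae_thin_level i hfr] with O hO _
          exact hO
        · exact Filter.Eventually.of_forall fun O h => absurd h him
      filter_upwards [ae_all_iff.2 hi] with O hO A hA i him
      exact hT i A (hO i him A hA)
  · have h := ae_far_P (S := {A : Oracle | ∀ L, IsSpace 0 A L → IsTHpoly 0 A L}) (fun f hf =>
      null_level 0 f (fun ε hε => hf ε hε) _ fun A hA => hA _ (test_space 0 A)) hg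
    filter_upwards [h] with O hO A hA
    have h2 := hO A hA
    push Not at h2
    exact hT 0 A h2

end Pool.Agent.Results.MP_47ff19_lc.ChangedStrings
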