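import Pool.Agent.W997.DB.Stmt

/-!
# Polynomial time versus small space for programs which read few variables

We evaluate the unrolled De Bruijn graph: the nodes of height `j ≤ h` are the pairs of a word and a
letter, the children of a node are the nodes of the next smaller height whose words arise by
shifting, and every inner node has a table indexed by the tuples of values of its children.  With
`N` the number of variables we show that for all heights `1 ≤ h ≤ 2 ^ p`, where `2 ^ p ≥ N ^ c`:

* there are Boolean circuits of polynomial size and depth `O(h log N)`;
* there are deterministic branching programs of log size `O(h log N)` which read only `N ^ δ`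
  different variables, and others which stop after `N ^ δ` steps;
* but deterministic branching programs of log size `c * h * log N` have to read almost all
  variables, on average, even if they are right only on slightly more than half of the inputs, and
  no matter how long they run.

For `h = 2 ^ p` this is a problem solved in time `N ^ δ` which is not solved with space `N ^ c` if
only `N ^ (1 - δ)` different variables are read.  For all `h` the simulation of depth `s` in space
`O(s)` is optimal for such programs.

Proof idea.  If only a small number of entries is read at every node, then a state of the program
determines the values of the nodes which are alive, up to few possibilities (counting lemma,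
fibre and union bound).  In the last step in which some path from the root to a leaf is free of
live nodes the end of this path is evaluated, and then every one of the `h` branches off this path
contains a group of siblings which is almost completely alive; by the structure of the De Bruijn
graph these groups can be found within one window, where the branches are disjoint.
-/

set_option autoImplicit false

namespace Pool.Agent.Results.MP_47ff19_lc.DepthSpaceLaw

open Finset
open Pool.Agent.W997.DB

/-- For every `δ > 0` there are `D`, `ℓ₁`, `c > 0` and `p₀` such that for all `p ≥ p₀` and all
`1 ≤ h ≤ 2 ^ p`, with `ℓ = ℓ₁ * p`, alphabet `Fin (2 ^ ℓ)` and `N` the number of variables of the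
unrolled De Bruijn graph of height `h` over words of length `2 * p + 1` (then `N ^ c ≤ 2 ^ p`), the
lowest bit of the value of every root

* is computed by Boolean circuits of size at most `N ^ 2` and depth at most `5 * h * log N`,
* is computed by a deterministic branching program of log size at most `2 * h * log N` which, on
  every input, stops after at most `D ^ (h + 1)` steps and reads at most `N ^ δ` different
  variables,
* is computed by a deterministic branching program of log size at most `N ^ δ` in time `N ^ δ`,
* but every deterministic branching program of log size at most `c * h * log N` which halts on all
  inputs, with the right answer on a fraction of at least `1 / 2 + N ^ (-c)` of them, reads on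
  average at least `N ^ (1 - δ)` different variables. -/
theorem result : ∀ δ : ℝ, 0 < δ → ∃ D ℓ₁ : ℕ, 2 ≤ D ∧ 1 ≤ ℓ₁ ∧ ∃ c : ℝ, 0 < c ∧ ∃ p₀ : ℕ,
    ∀ p : ℕ, p₀ ≤ p → ∀ h : ℕ, 1 ≤ h → h ≤ 2 ^ p → ∀ ℓ : ℕ, ℓ = ℓ₁ * p → ∀ N : ℝ,
    N = Fintype.card (Var D (2 * p) h (2 ^ ℓ)) → N ^ c ≤ 2 ^ p ∧
      ∀ (g : Word D (2 * p)) (i : Fin D) (f : Input D (2 * p) h (2 ^ ℓ) → Bool),
      f = rootBit g i →
      ByCircuit f (N ^ 2) (5 * h * Real.log N) ∧
      ByProgram f (2 * h * Real.log N) (D ^ (h + 1)) (N ^ δ) ∧
      ByProgram f (N ^ δ) (N ^ δ) (N ^ δ) ∧
      HardReads f (c * h * Real.log N) (N ^ (-c)) (N ^ (1 - δ)) :=
  fun δ hδ => law_stmt δ hδ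

end Pool.Agent.Results.MP_47ff19_lc.DepthSpaceLaw
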