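import Pool.Agent.W969.MC.Int4

/-!
Is there a word that is accepted by all of `k` given nondeterministic automata with `n` states over
the alphabet `{0, 1}`? This problem is complete for PSPACE (Kozen), and monotone in the bits that
describe the automata (transitions, start states, accepting states). The search in the product of
the automata takes `n ^ k` steps, up to polynomial factors; it can be done by monotone circuits of
size `n ^ O(k)`. An algorithm with `n ^ o(k)` steps would have strong consequences in complexity
theory (Karakostas, Lipton and Viglas). We show that `n ^ (δ k)` gates are needed in the following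
model.

The circuits compute with real numbers, their monotone gates compute arbitrary nondecreasing real
functions of two arguments (Pudlák's model), and there are some arbitrary further gates, for
instance `t` NOT gates; `freedom` is the product of the numbers (fan-in + 1) over the further gates,
that is `2 ^ t` for `t` NOT gates. A randomised circuit is a finite nonempty family of circuits from
which one is chosen uniformly at random; it accepts the inputs with a common word with probability at
least `p + n ^ (-δ)` and the others with probability at most `p` (`p = 0` and a family with one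
member for an ordinary circuit).

Result: if the freedom is at most `F`, then the size is at least `n ^ (δ l)` for every `l ≤ k` with
`l F ≤ n ^ (1 - ε)`. So the size is `n ^ Θ(k)` for all `k ≤ n ^ (1 - ε)`, and the bound holds with up
to `(1 - ε) log n - log k` NOT gates. For `k = n` the bound is `exp (n ^ (1 - ε))`.

The proof: an average case version of the approximation method for constraint satisfaction problems
on sparse expanding hypergraphs. The common word describes an assignment of the problem: for each
constraint the values of its variables, in unary. One automaton for each variable checks that all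
its values are the same, and one automaton for each constraint checks that the tuple of values is
allowed; it stores the tuple only while it reads it, so that `l ^ (1 + o(1))` states are enough.
-/

namespace Pool.Agent.Results.MP_47ff19_lc.IntersectionNonemptiness

/-- A real circuit with the input bits `Inp` and the gates `0, ..., s - 1`. Gate `i` has `w i`
inputs, namely `a i j`, each an input bit (`0` or `1`) or an earlier gate, and its value on the
input `x` is `val x i`. The gates outside `T` compute nondecreasing functions of at most two real
numbers. The output of a gate `i` in `T` depends in an arbitrary way on the bits that tell whether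
`θ i j` is at most the `j`-th input (a NOT gate, for instance). The circuit accepts if the value of
gate `out` is at least `τ`. -/
structure RealCircuit (Inp : Type) where
  s : ℕ
  T : Finset (Fin s)
  w : Fin s → ℕ
  a : (i : Fin s) → Fin (w i) → Inp ⊕ Fin s
  op : (i : Fin s) → (Fin (w i) → ℝ) → ℝ
  θ : (i : Fin s) → Fin (w i) → ℝ
  val : (Inp → Bool) → Fin s → ℝ
  out : Fin s
  τ : ℝ
  earlier : ∀ i j k, a i j = Sum.inr k → k < i
  mono : ∀ i ∉ T, w i ≤ 2 ∧ Monotone (op i)
  free : ∀ i ∈ T, ∀ z z' : Fin (w i) → ℝ, (∀ j, θ i j ≤ z j ↔ θ i j ≤ z' j) → op i z = op i z'
  spec : ∀ x i, val x i = op i (fun j =>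
    Sum.elim (fun p => if x p = true then (1 : ℝ) else 0) (val x) (a i j))

/-- The circuit accepts the input. -/
def RealCircuit.Accepts {Inp : Type} (C : RealCircuit Inp) (x : Inp → Bool) : Prop :=
  C.τ ≤ C.val x C.out

/-- The size: the number of gates plus the number of inputs of the gates in `T`. -/
def RealCircuit.size {Inp : Type} (C : RealCircuit Inp) : ℕ := C.s + ∑ i ∈ C.T, C.w i

/-- The product of the numbers `w i + 1` over the gates in `T`. It is `1` if `T` is empty and
`2 ^ t` if `T` consists of `t` NOT gates. -/
def RealCircuit.freedom {Inp : Type} (C : RealCircuit Inp) : ℕ := ∏ i ∈ C.T, (C.w i + 1)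

/-- The probability that the input is accepted by a circuit that is chosen uniformly at random from
the family `C`. -/
noncomputable def acceptance {R Inp : Type} (C : R → RealCircuit Inp) (x : Inp → Bool) : ℝ :=
  (Nat.card {ρ : R // (C ρ).Accepts x} : ℝ) / Nat.card R

/-- The bits that describe a nondeterministic automaton with the states `0, ..., n - 1` over the
alphabet `{0, 1}`: for `p`, `c`, `q`, whether there is a transition from `p` to `q` that reads `c`;
for each state, whether it is a start state; for each state, whether it is accepting. -/
abbrev Bits (n : ℕ) : Type := (Fin n × Bool × Fin n) ⊕ (Fin n ⊕ Fin n)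

/-- The automaton that is described by the bits `x`. -/
def automaton {n : ℕ} (x : Bits n → Bool) : NFA Bool (Fin n) where
  step p c := {q | x (Sum.inl (p, c, q)) = true}
  start := {q | x (Sum.inr (Sum.inl q)) = true}
  accept := {q | x (Sum.inr (Sum.inr q)) = true}

/-- Some word is accepted by all of the `k` automata. -/
def CommonWord {k n : ℕ} (x : Fin k × Bits n → Bool) : Prop :=
  ∃ w : List Bool, ∀ a : Fin k, w ∈ (automaton (fun e => x (a, e))).accepts

/-- For every `ε > 0` there are `δ > 0` and `l0` such that for all `n`, `k`, `l` with `l0 ≤ l ≤ k`
and all real `F ≥ 1`, `p` with `l F ≤ n ^ (1 - ε)` the following holds. If a finite nonempty family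
of real circuits whose numbers `freedom` are at most `F` accepts all sequences of `k`
nondeterministic automata with `n` states over `{0, 1}` that have a common word with probability at
least `p + n ^ (-δ)` and all the others with probability at most `p`, then some member has size at
least `n ^ (δ l)`. -/
theorem result (ε : ℝ) (hε : 0 < ε) :
    ∃ δ : ℝ, 0 < δ ∧ ∃ l0 : ℕ, ∀ n k l : ℕ, l0 ≤ l → l ≤ k → ∀ F : ℝ, 1 ≤ F →
      (l : ℝ) * F ≤ (n : ℝ) ^ (1 - ε) →
      ∀ (R : Type) [Finite R] [Nonempty R] (C : R → RealCircuit (Fin k × Bits n)) (p : ℝ),
        (∀ x, CommonWord x → p + (n : ℝ) ^ (-δ) ≤ acceptance C x) →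
        (∀ x, ¬ CommonWord x → acceptance C x ≤ p) →
        (∀ ρ, ((C ρ).freedom : ℝ) ≤ F) →
        ∃ ρ, (n : ℝ) ^ (δ * l) ≤ ((C ρ).size : ℝ) := by
  obtain ⟨δ, hδ, l0, H⟩ := Pool.Agent.W969.MC.int_main ε hε
  refine ⟨δ, hδ, l0, ?_⟩
  intro n k l hl hlk F hF hlF R _ _ C p h1 h2 h3
  let _ : Fintype R := Fintype.ofFinite R
  have hR : (0 : ℝ) < Fintype.card R := by exact_mod_cast Fintype.card_pos
  have hacc : ∀ x, acceptance C x * Fintype.card R =
      ({ρ : R | (C ρ).Accepts x}.ncard : ℝ) := by
    intro x
    unfold acceptance
    rw [Nat.card_eq_fintype_card (α := R), div_mul_cancel₀ _ hR.ne']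
    rfl
  set C' : R → Pool.Agent.W969.MC.RC (Fin k × Bits n) := fun ρ => ⟨(C ρ).s, (C ρ).T, (C ρ).w,
    (C ρ).a, (C ρ).op, (C ρ).θ, (C ρ).val, (C ρ).out, (C ρ).τ, (C ρ).earlier, (C ρ).mono,
    (C ρ).free, (C ρ).spec⟩ with hC'
  refine H k l n F hl hlk hF hlF R C' p ?_ ?_ h3
  · intro x hx
    refine le_trans (mul_le_mul_of_nonneg_right (h1 x hx) hR.le) (le_of_eq (hacc x))
  · intro x hx
    refine le_trans (le_of_eq (hacc x).symm) (mul_le_mul_of_nonneg_right (h2 x hx) hR.le)

end Pool.Agent.Results.MP_47ff19_lc.IntersectionNonemptiness
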