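import Pool.Agent.W988.PF.Last

/-!
# Small space against polynomial time: programs that read few bits of the input

There are functions with linear size circuits such that deterministic branching programs that read
at most `n / (log n) ^ 15` of the `n` bits of the input need `2 ^ (n / (log n) ^ 20)` states, even
to be correct with an exponentially small advantage over the probability one half, and for any
running time. This is optimal up to factors `(log n) ^ O(1)` in the exponent, and programs that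
read the whole input need only `2 ^ (√n)` states for the same functions.
-/

set_option autoImplicit false

namespace Pool.Agent.Results.MP_47ff19_lc.PebblingFewReads

open Pool.Agent.W988.PF

theorem result :
    ∃ (f : ∀ n : ℕ, (Fin n → Bool) → Bool) (n₀ : ℕ), ∀ n ≥ n₀,
      -- circuits of size `n`
      (∃ C : Circuit n, C.size ≤ n ∧ ∀ x, C.Outputs x (f n x)) ∧
      -- programs that read everything
      (∃ (Q : Type) (_ : Finite Q) (P : BP n Q), Nat.card Q ≤ 2 ^ Nat.sqrt n ∧
        ∀ x, P.Outputs x (f n x)) ∧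
      -- programs that read few bits
      (∃ (Q : Type) (_ : Finite Q) (P : BP n Q), Nat.card Q ≤ 2 ^ (n / Nat.log 2 n ^ 15) ∧
        ∀ x, P.Outputs x (f n x) ∧ P.reads x ≤ n / Nat.log 2 n ^ 15) ∧
      -- the lower bound for programs that read few bits
      (∀ (Q : Type) (_ : Finite Q) (P : BP n Q),
        (1 / 2 + (1 / 2 : ℝ) ^ (n / Nat.log 2 n ^ 20)) * 2 ^ n ≤
          Nat.card {x : Fin n → Bool //
            P.Outputs x (f n x) ∧ P.reads x ≤ n / Nat.log 2 n ^ 15} →
        2 ^ (n / Nat.log 2 n ^ 20) ≤ Nat.card Q) := by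
  classical
  obtain ⟨n₀, h₀⟩ := exists_par
  have key : ∀ n : ℕ, ∃ f : (Fin n → Bool) → Bool, n₀ ≤ n →
      (∃ C : Circuit n, C.size ≤ n ∧ ∀ x, C.Outputs x (f x)) ∧
      (∃ (Q : Type) (_ : Finite Q) (P : BP n Q), Nat.card Q ≤ 2 ^ Nat.sqrt n ∧
        ∀ x, P.Outputs x (f x)) ∧
      (∃ (Q : Type) (_ : Finite Q) (P : BP n Q), Nat.card Q ≤ 2 ^ (n / Nat.log 2 n ^ 15) ∧
        ∀ x, P.Outputs x (f x) ∧ P.reads x ≤ n / Nat.log 2 n ^ 15) ∧
      (∀ (Q : Type) (_ : Finite Q) (P : BP n Q),
        (1 / 2 + (1 / 2 : ℝ) ^ (n / Nat.log 2 n ^ 20)) * 2 ^ n ≤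
          Nat.card {x : Fin n → Bool //
            P.Outputs x (f x) ∧ P.reads x ≤ n / Nat.log 2 n ^ 15} →
        2 ^ (n / Nat.log 2 n ^ 20) ≤ Nat.card Q) := by
    intro n
    by_cases hn : n₀ ≤ n
    · obtain ⟨j, a, h⟩ := h₀ n hn
      obtain ⟨f, hf⟩ := main_n h
      exact ⟨f, fun _ => hf⟩
    · exact ⟨fun _ => false, fun h => absurd h hn⟩
  choose f hf using key
  exact ⟨f, n₀, fun n hn => hf n hn⟩

end Pool.Agent.Results.MP_47ff19_lc.PebblingFewReads
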