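import Pool.Agent.W988.SR.PyrMain
import Pool.Agent.W988.SR.Upper

/-!
# Logarithmic space against polynomial time: programs that read tables sparsely

The evaluation of a directed acyclic graph of tables (for pyramids this problem is complete for
polynomial time) by deterministic branching programs (the nonuniform form of logarithmic space is
polynomially many states). A program may read any entries, right or wrong, but near the right
entries it reads at most the fraction `1 / ρ` of the entries of a table. Such programs need
`ρ ^ p` states up to a factor that depends on the graph only, where `p` is the black pebbling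
number, even to be correct on a small fraction of the inputs; `ρ = k` is reached by pebblings.
-/

set_option autoImplicit false

namespace Pool.Agent.Results.MP_47ff19_lc.SparseReading

open Pool.Agent.W988.SR

theorem result :
    -- every directed acyclic graph
    (∀ (V : Type) [Fintype V] (G : Dag V) (t : V) (p : ℕ), 2 ≤ p → G.NeedsPebbles t p →
      ∀ (k ρ m : ℕ) (O : Type) (φ : Fin k → O), 0 < ρ →
        (∀ o, Nat.card {c : Fin k // φ c = o} ≤ m) →
        ∀ (Q : Type) [Finite Q] (P : Program (G.Entry k) k Q O),
          (Nat.card {I : G.Tables k //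
              P.Outputs I (φ (G.val I t)) ∧ ReadsSparsely G P ρ I} : ℝ) ≤
            (m / k + G.edges / ρ + 3 * Nat.card Q * G.edges.choose p / ρ ^ p) *
              Nat.card (G.Tables k)) ∧
    -- pyramids
    (∀ (h : ℕ) (hh : 2 ≤ h) (k ρ m : ℕ) (O : Type) (φ : Fin k → O), 0 < ρ →
        (∀ o, Nat.card {c : Fin k // φ c = o} ≤ m) →
        ∀ (Q : Type) [Finite Q] (P : Program ((pyramid h).Entry k) k Q O),
          (Nat.card {I : (pyramid h).Tables k //
              P.Outputs I (φ ((pyramid h).val I (apex h (Nat.lt_of_lt_of_le Nat.two_pos hh)))) ∧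
                ReadsSparsely (pyramid h) P ρ I} : ℝ) ≤
            (m / k + h ^ 2 / ρ + 3 * Nat.card Q * (3 * h / ρ) ^ h) *
              Nat.card ((pyramid h).Tables k)) ∧
    -- the matching upper bound
    (∀ (V : Type) [Fintype V] (G : Dag V) (t : V) (p T : ℕ) (C : ℕ → Finset V), C 0 = ∅ →
      t ∈ C T → (∀ i < T, ∃ v, G.pred v ⊆ C i ∧ ∀ u ∈ C (i + 1), u = v ∨ u ∈ C i) →
      (∀ i ≤ T, (C i).card ≤ p) → ∀ k : ℕ, 0 < k →
        ∃ (Q : Type) (_ : Finite Q) (P : Program (G.Entry k) k Q (Fin k)),
          Nat.card Q ≤ (T + 1) * k ^ p ∧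
            ∀ I, P.Outputs I (G.val I t) ∧ ReadsSparsely G P k I) := by
  refine ⟨?_, ?_, ?_⟩
  · intro V _ G t p hp hn k ρ m O φ hρ hm Q _ P
    exact main φ m hm hρ hp hn
  · intro h hh k ρ m O φ hρ hm Q _ P
    exact pyramid_main h k ρ hh hρ φ m hm P
  · intro V _ G t p T C h0 ht hs hp k hk
    exact upper t p T C h0 ht hs hp hk

end Pool.Agent.Results.MP_47ff19_lc.SparseReading
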