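import Pool.Agent.H529R3.Lev.Main

/-!
# How many oracles collapse `C_{2m+1} ⊆ C_{2m+2}` in the polynomial space-time hierarchy?

For every `m` and every gauge `f`, the set of the oracles relative to which
`TIME 2_m^POL = SPACE 2_m^POL` is a null set for `f` if and only if for every `ε > 0` there are
infinitely many `N` with `f N ≤ 2 ^ ((log^{(m+1)} N) ^ ε)`, where `log^{(m+1)}` is the logarithm
iterated `m + 1` times. The same holds if it is also required that none of the lower inclusions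
`TIME 2_i^POL ⊆ SPACE 2_i^POL`, `i < m`, is an equality, and for every set of oracles between
these and the set of the oracles relative to which `SPACE 2_m^POL` is contained in the hierarchy
over `TIME 2_m^POL` with polynomial advice.

The proof is in modules of helpers 529, 620, 622 and others.
-/

set_option autoImplicit false

namespace Pool.Agent.Results.MP_47ff19_lc.ZGaugeLevels

open Pool.Agent.NPC Pool.Agent.H620R2.Gauge H529R3.Lev

theorem result (m : ℕ) (f : ℕ → ℝ) :
    (∀ O : Set Oracle,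
      (∀ A : Oracle, (∀ L, IsSpace m A L → ReducesTime m A L) →
        (∀ i < m, ∃ L, IsSpace i A L ∧ ¬ IsTHpoly i A L) → A ∈ O) →
      (∀ A ∈ O, ∀ L, IsSpace m A L → IsTHpoly m A L) →
      (Null f O ↔ ∀ ε : ℝ, 0 < ε → ∃ᶠ N : ℕ in Filter.atTop,
        f N ≤ 2 ^ ((Real.logb 2)^[m + 1] (N : ℝ)) ^ ε)) ∧
    (Null f {A : Oracle | ∀ L, IsTime m A L ↔ IsSpace m A L} ↔
      ∀ ε : ℝ, 0 < ε → ∃ᶠ N : ℕ in Filter.atTop,
        f N ≤ 2 ^ ((Real.logb 2)^[m + 1] (N : ℝ)) ^ ε) ∧
    (Null f {A : Oracle | (∀ L, IsTime m A L ↔ IsSpace m A L) ∧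
        ∀ i < m, ¬ ∀ L, IsTime i A L ↔ IsSpace i A L} ↔
      ∀ ε : ℝ, 0 < ε → ∃ᶠ N : ℕ in Filter.atTop,
        f N ≤ 2 ^ ((Real.logb 2)^[m + 1] (N : ℝ)) ^ ε) := by
  refine ⟨fun O h1 h2 => exact_level m f O h1 h2, exact_level m f _ ?_ ?_,
    exact_level m f _ ?_ ?_⟩
  · intro A hA _ L
    exact ⟨fun h => h.isSpace, fun h => (hA L h).isTime⟩
  · intro A hA L hL
    exact ((hA L).2 hL).isTH.isTHpoly
  · intro A hA hex
    refine ⟨fun L => ⟨fun h => h.isSpace, fun h => (hA L h).isTime⟩, fun i hi h => ?_⟩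
    obtain ⟨L, hL, hL'⟩ := hex i hi
    exact hL' ((h L).2 hL).isTH.isTHpoly
  · intro A hA L hL
    exact ((hA.1 L).2 hL).isTH.isTHpoly

end Pool.Agent.Results.MP_47ff19_lc.ZGaugeLevels
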